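import Pool.Agent.Q59.FF.Fin

/-!
# The noncommutative Hodge conjecture for Fermat varieties: rank-two and modular classes

Let `X` be any product of Fermat varieties of degree `m` with at most `k` homogeneous coordinates in all (for
one factor: dimension at most `k - 2`) and `C` any admissible subcategory of `D^perf (X)`: Kuznetsov components
of Fermat hypersurfaces, categories of graded matrix factorizations of Fermat polynomials
`x_1 ^ m + ... + x_N ^ m` (Orlov) and of their sums, their equivariant versions (admissible in
`D^perf` of the same products by Orlov's theorem and Ishii-Ueda), exceptional pieces, etc. By the problem file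
the conjecture for all these `C` follows from the Hodge conjecture for the varieties `X`. By Shioda and
Katsura the Hodge classes on the products `X` are spanned (up to products with classes of linear sections) by
the lines of the Hodge characters of degree `m` with at most `k` entries. The set of the characters with an
algebraic line is closed under union and removal of pairs and contains the pairs `{a, -a}` (Shioda, Katsura),
the standard characters (Aoki, Shioda), the Hodge characters with four entries and the curve products
(theorem of Lefschetz on `(1, 1)` classes; a curve product is a Hodge character `b ∪ b'` where `b`, `b'` live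
on Fermat curves or on uniruled quotients of the Fermat threefold), and one can pass from the degree
`2 * m` to the degree `m` (Shioda).

A *rank-two character* is a Hodge character `s` which is the union of the nonzero exponents of the matrices
`ρ (x_1), ..., ρ (x_n)`, where `ρ` is a representation of a finite group on `ℂ ^ d`, `x_1 * ... * x_n = 1` and there
is no common fixed vector, and which has at most `2 * d + 2` entries: then the part of `h^1` of the Galois
cover of the line with the monodromy `x_1, ..., x_n` which belongs to `ρ` has rank at most two. A *modular character*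
comes in the same way from the classical modular curve.

**Theorem (Lean).**
1. For EVERY degree `m` every Hodge character with at most six entries is generated by the characters above and, if
`110` divides `m`, by rank-two characters. (The starting theorem `FermatFourfolds` leaves the characters which come
from the conjugates of `{1, 31, 55, 71, 81, 91} / 110`. These are generated by pairs and the rank-two characters
of the representation of dimension five of `PSL_2(11)`, with generators of orders `11`, `5`, `2`, twisted by the
scalars `e(c)` and `e(-c)` at the first two, `c` of order `10`: the nonzero exponents `c + a / 11`, `a` a square,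
`-c + i / 5` and `1/2`, `1/2` are `12 = 2 * 5 + 2` in number.)
2. For every `k` there are explicit finite sets `ExcludedEven k` and `ExcludedOdd k`. Let `m` be
even (odd) and not divisible by an element of `ExcludedEven k` (of `ExcludedOdd k`) with a prime factor
`p = 1 mod 4`. Then every Hodge character of degree `m` with at most `k` entries is generated by the characters
above (pairs, standard, four entries, curve products) and, if some element of `ExcludedEven k` (of `ExcludedOdd k`)
divides `m`, by the modular characters.

So the conjecture holds for these `X` and `C`, if `k ≤ 6` and `110` does not divide `m`, or if no element of the excluded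
set divides `m` (this part only uses the published algebraicity statements above); it is reduced to the lines of
the rank-two characters if `k ≤ 6`, for all `m` (all Fermat fourfolds), and it is reduced to the lines of the modular characters
if the elements of the excluded set which divide `m` have no prime factor `p = 1 mod 4`; in particular
for all `k`, i.e. for all products of Fermat varieties of degree `m`, if `m` has no prime factor `p = 1 mod 4`
(the degrees `2 ^ a * 3 ^ b * 7 ^ c * 11 ^ d * 19 ^ e ...`). The modular characters come from the classical
modular curve. We give the arguments why these lines are algebraic (Theorems A and B; they are not part of the Lean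
file and are not published).

## Why the lines of the rank-two and of the modular characters are algebraic

Conventions. Varieties over `C`; motives for homological equivalence with coefficients `Qbar`; all motives here
lie in the tensor category generated by motives of curves (Fermat varieties: Shioda-Katsura), which is
semisimple and Tannakian (Lieberman, Jannsen). Let `P` be the group of the isomorphism classes of its
invertible objects modulo Tate twists; a nonzero correspondence between two lines is an isomorphism.
`Gal(Qbar/Q)` acts on the coefficients, hence on `P`. Let `F` be the free abelian group on `Q/Z - 0` and `F_0` the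
kernel of the sum `F → Q/Z`.

**Lemma 0.** The line `L(s)` of a character `s` gives a homomorphism `L : F_0 → P`, which kills the pairs
`[a] + [-a]`, the elements `Σ_i [a + i/p] - [p a]` (`p` odd prime, `p a ≠ 0`) and
`[a] + [a + 1/2] - [2 a] - [1/2]` (`2 a ≠ 0`) (Shioda-Katsura; Aoki, Shioda). By iteration over the primes of
`e ≥ 1`, the sum `I(b, e)` of the nonzero ones among the `[x]` with `e x = b` is `[b] + (e - 1) [1/2]` modulo
these elements (`[0] := 0`).

**Lemma 1** (rank one; Schoen's argument). Let `Y` be a smooth projective curve of genus `g`, `U = Y - {a_1, ..., a_r}`,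
`χ` a nontrivial character of finite order of `π_1(U)` with nonzero exponents `b_1, ..., b_r` at the `a_j`,
`n = 2 g - 2 + r = dim H^1_c(U, χ)`, `Y' → Y` the cyclic cover of `χ` with the group `μ`. Then
`det H^1_c(U, χ) = L(b_1, ..., b_r)` in `P`.

*Proof.* `det H^1_c(U, χ) = H^n_c(Sym^n U, χ^(n))`. Let `f : Sym^n U → Pic^n Y`. For `r ≥ 1` and every class `D` of
degree `n`: `h^1(D) = 0`, `h^0(D) = g - 1 + r`, and the evaluation `H^0(D) → Σ_j D|a_j = C^r` has a kernel of
dimension `g - 1` for `D ≠ D_0 := K + Σ a_j` and `g` for `D = D_0`. So for `D ≠ D_0` the fibre of `f` is an affine space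
bundle over `(C^*)^r / C^*` with the Kummer system of exponents `(b_j)` (the monodromy of `χ^(n)` around `v_j = 0` is
that of one zero turning round `a_j`; `r ≥ 2`, since `Σ b_j = 0`), and has no cohomology with compact supports.
For `D_0` the image of the evaluation is `Σ v_j = 0` (residue theorem), and the fibre `Z` is an affine
space bundle of rank `g` over `B = {v ∈ P^(r-1) : Σ v_j = 0, all v_j ≠ 0}`. So the restriction
`H^n_c(Sym^n U, χ^(n)) → H^n_c(Z) = H^(r-2)_c(B, (b_j))(-g)` is an isomorphism, and `H^(r-2)_c(B, (b_j)) = L(b_1, ..., b_r)`.
For `r = 0` the system `χ^(n)` comes from a nontrivial character of `π_1(Pic^n Y)`, which kills the contributions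
of `1, h, ..., h^(g-2)`; the remaining one is `H^(2g-2)(P^(g-1))` of the fibre `|K|`.

The isomorphism is algebraic: let `Z'` be the inverse image of `Z` in `U'^n` (quotient `Sym^n U` by
`Γ = μ^n ⋊ S_n`), `X_0 → B` the open part of the Fermat variety `X` (group `A`), `G_0 = Z' ×_B X_0` and `G_1` an
irreducible component of `G_0`. `G_0 → Z` is finite and flat, so its components dominate `Z` and are permuted
transitively by `Γ × A`. Over `G_0` the isomorphism of the system `χ^(n)` on `Z` with the pullback of the Kummer
system is an element of the corresponding isotypic line of `H^0(G_0)`; as `[G_1]` generates `H^0(G_0)`, the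
projection of `[G_1]` is a nonzero multiple of it. `G_1 → U'^n` is finite, so `G_1` is closed in `U'^n × X`;
`G_1 → X_0` has all fibres of dimension `g` (`Z' → Z` finite flat, `Z → B` smooth). Let `G` be the closure of `G_1` in
`Y'^n × X`. For `x` in `H^n_c(U'^n)` the class `pr_2*(pr_1^* x . [G])` is the image of `q_! p^* x` (`p : G_1 → U'^n`,
`q : G_1 → X_0`), because the closure has no further points over `U'^n`. On the parts in question
`H_c → H` is an isomorphism on both sides (all exponents are nonzero), so `[G]`, followed by the two projectors,
is a nonzero multiple of the isomorphism above. (For `r = 0`: a component of the inverse image of `|K|` in `Y'^n`.)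

**Lemma 2.** Let `H` be a finite group with generators `x_1, ..., x_n` of product `1`, `C → P^1` the Galois cover with
the group `H`, branched over `n` points with the local monodromies `x_1, ..., x_n` (Riemann's existence theorem), `ρ` a
representation of `H`, `D(ρ) = det (h^1(C) ⊗ ρ)^H` in `P` and `E(ρ)` in `F_0` the sum of the nonzero exponents
of `ρ(x_1), ..., ρ(x_n)` (logarithms of the eigenvalues; the product of the `det ρ(x_j)` is `1`). Then
`D(ρ) = L(E(ρ))`.

*Proof.* Both sides are additive in `ρ`; by Brauer let `ρ = Ind_K^H χ`, `Y = C/K`. Then
`D(ρ) = det H^1(Y, j_* χ) = L(Σ_y [b_y])` by Lemma 1, `y` the points over the branch points (for `χ = 1` both are `0`; a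
global change of sign of the exponents does not matter, `L(-s) = -L(s)`). With the ramification indices `e_y`:
`E(ρ) = Σ_y I(b_y, e_y) = Σ_y [b_y] + k [1/2]` modulo the kernel of `L`; comparing sums, `k` is even.

**Theorem A.** The line of a rank-two character `s` is algebraic.

*Proof.* Let `H` be the group generated by the `x_j` and `C` as in Lemma 2. As there is no common fixed vector,
`M = (h^1(C) ⊗ ρ)^H` has the rank `Σ_j rank (ρ(x_j) - 1) - 2 d = |s| - 2 d`, an even number, so `0` or `2`, and
`det M = D(ρ) = L(s)` by Lemma 2. If the rank is `0`, `L(s) = 0` in `P`. Let it be `2`. For `g` in `Gal(Qbar/Q)` the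
line `det M_g = g L(s) = L(g s)`, `M_g = (h^1(C) ⊗ g ρ)^H = Hom_H ((g ρ)^∨, h^1(C))`, is of the Hodge type `(w, w)`,
because `s` is a Hodge character. Hence the classes `f(u) ⊗ f'(u') - f'(u) ⊗ f(u')` in `h^1(C) ⊗ h^1(C)`
(`f, f'` in `M_g`, `u, u'` in `(g ρ)^∨`, all `g`) span a space which is stable under `Gal(Qbar/Q)`, so defined over `Q`,
and of the type `(1, 1)`; by the theorem of Lefschetz it consists of algebraic classes on `C × C`. So `det M` is a
Tate twist and the line `L(s)` is spanned by the class of an algebraic cycle.

**Lemma 3.** `h^1(X(N))` is a direct sum of simple objects `W` of rank two with `det W = Qbar(-1)` and of the lines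
`ψ_K`, `ψ_K^c` of elliptic curves with complex multiplication by imaginary quadratic fields `K`,
`ψ_K ψ_K^c = Qbar(-1)`; so `D(ρ) = Σ_K n_K ψ_K` in `P` for representations `ρ` of
`G = PSL_2(Z/N)`.

*Proof.* `J(X(N))` is isogenous to a product of factors `A_f` of `J_1(N^2)` (Shimura). `h^1(A_f)` is the sum of the
eigenobjects `V_σ`, `σ : E_f → Qbar`, of rank two and type `(1, 0) + (0, 1)`; the sum of the `det V_σ` is a rational
space of `(1, 1)` classes in `H^2(A_f)`, so algebraic (Lefschetz). If `f` has no complex multiplication, `V_σ` is
simple (otherwise `A_f` would be of CM type); if it has, `A_f` is isogenous to a power of an elliptic curve with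
complex multiplication (Shimura, Ribet). Finally `(W ⊗ M_W ⊗ ρ)^G` is a multiple of `W`.

**Lemma 4.** For `w` in `F_0` with entries of order dividing `12`, `L(w)` is a combination of `ψ_(Q(i))` and
`ψ_(Q(√-3))`: all CM types of the biquadratic field `Q(μ_12)` are induced, so that the Jacobian of the Fermat curve
of degree `12` is isogenous to a product of elliptic curves with complex multiplication by these fields.

**Theorem B.** The line of a modular character `s` is algebraic.

*Proof.* `s = t + w`, `t` the nonzero exponents of `ρ(T)`. Lemma 2 for `C = X(N)`, `H = PSL_2(Z/N)` and the images of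
`T` and of the elements of order two and three applies. As the exponents at `i` and `ω` have order dividing `6`,
`s = E(ρ) + w'` with `w'` in `F_0` of order dividing `12`, and `L(s) = Σ_K n_K ψ_K`. For `g` in `Gal(Qbar/Q)` the line
`L(g s) = g L(s) = Σ_K χ_K(g) n_K ψ_K` has the Hodge type `(x, y)` with `x - y = ± Σ_K χ_K(g) n_K`, and it is `0` because
`s` is a Hodge character. The quadratic characters `χ_K` of the fields `K` are distinct, hence linearly independent,
so all `n_K = 0` and `L(s)` is a Tate twist: it is spanned by the class of an algebraic cycle.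
-/

namespace Pool.Agent.Results.MP_43e44c_ag.FermatModularClasses

open Pool.Agent.H916R2 Pool.Agent.Y2.Cv MatrixGroups Polynomial

/-- A rank-two character of degree `m`: a Hodge character `s` for which there are a representation `ρ` of a finite
group `G` on `ℂ ^ d` and elements `x_1, ..., x_n` of `G` with product `1` and without a common fixed vector `v ≠ 0`,
such that `s` is the union of the nonzero exponents of `ρ (x_1), ..., ρ (x_n)` and has at most `2 * d + 2` entries.
The exponents of a matrix: the multiset `t` for which the characteristic polynomial is the product of the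
`X - exp (2 π i a / m)`, `a ∈ t`. -/
def RankTwoCharacter (m : ℕ) (s : Multiset (ZMod m)) : Prop :=
  IsHodge m s ∧ ∃ (G : Type) (_ : Group G) (_ : Finite G) (d n : ℕ)
    (ρ : G →* Matrix (Fin d) (Fin d) ℂ) (x : Fin n → G) (t : Fin n → Multiset (ZMod m)),
    (List.ofFn x).prod = 1 ∧ (∀ v : Fin d → ℂ, (∀ j, (ρ (x j)).mulVec v = v) → v = 0) ∧
    (∀ j, (ρ (x j)).charpoly =
      ((t j).map fun a => X - C (Complex.exp (2 * Real.pi * Complex.I * a.val / m))).prod) ∧
    s = (∑ j, t j).filter (fun a => a ≠ 0) ∧ Multiset.card s ≤ 2 * d + 2

/-- `t` is the multiset of the exponents at the cusp of a complex representation `ρ` of `SL_2(ℤ)` of finite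
dimension which is trivial on `-1` and on a principal congruence subgroup `Γ(N)`: the characteristic polynomial of
`ρ(T)`, `T = [[1, 1], [0, 1]]`, is the product of the `X - exp (2 π i a / m)`, `a ∈ t`. -/
def CuspExponents (m : ℕ) (t : Multiset (ZMod m)) : Prop :=
  ∃ (N d : ℕ) (ρ : SL(2, ℤ) →* Matrix (Fin d) (Fin d) ℂ), 0 < N ∧
    (∀ γ ∈ CongruenceSubgroup.Gamma N, ρ γ = 1) ∧ ρ (-1) = 1 ∧
    (ρ ModularGroup.T).charpoly =
      (t.map fun a => X - C (Complex.exp (2 * Real.pi * Complex.I * a.val / m))).prod

/-- A modular character of degree `m`: a Hodge character which is the union of the nonzero exponents of a congruence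
representation at the cusp and of residues `a` with `12 * a = 0`. -/
def ModularCharacter (m : ℕ) (s : Multiset (ZMod m)) : Prop :=
  IsHodge m s ∧ ∃ t w : Multiset (ZMod m), CuspExponents m t ∧ (∀ a ∈ w, 12 * a = 0) ∧
    s = t.filter (fun a => a ≠ 0) + w

/-- The excluded divisors of even degrees for the characters with at most `k` entries: `420`,
`4 * q` with `17 ≤ q ≤ 2 * k + 1`, `6 * q` with `23 ≤ q ≤ 4 * k + 1`, `10 * q` with
`11 ≤ q ≤ 2 * k + 1` and `2 * p * q` with `7 ≤ p < q ≤ k + 1`, where `p` and `q` are primes. -/
def ExcludedEven (k : ℕ) : Set ℕ :=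
  {l | l = 420 ∨ (∃ q : ℕ, q.Prime ∧ 17 ≤ q ∧ q ≤ 2 * k + 1 ∧ l = 4 * q) ∨
    (∃ q : ℕ, q.Prime ∧ 23 ≤ q ∧ q ≤ 4 * k + 1 ∧ l = 6 * q) ∨
    (∃ q : ℕ, q.Prime ∧ 11 ≤ q ∧ q ≤ 2 * k + 1 ∧ l = 10 * q) ∨
    (∃ p q : ℕ, p.Prime ∧ q.Prime ∧ 7 ≤ p ∧ p < q ∧ q ≤ k + 1 ∧ l = 2 * p * q)}

/-- The excluded divisors of odd degrees for the characters with at most `k` entries: `3 * q` with
`23 ≤ q ≤ 2 * k + 1` and `p * q` with `5 ≤ p < q`, `11 ≤ q ≤ k + 1`, where `p` and `q` are primes. -/
def ExcludedOdd (k : ℕ) : Set ℕ :=
  {l | (∃ q : ℕ, q.Prime ∧ 23 ≤ q ∧ q ≤ 2 * k + 1 ∧ l = 3 * q) ∨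
    (∃ p q : ℕ, p.Prime ∧ q.Prime ∧ 5 ≤ p ∧ p < q ∧ 11 ≤ q ∧ q ≤ k + 1 ∧ l = p * q)}

/-- The generators in the degree `m` besides the pairs and the standard characters: the Hodge characters with four
entries, the curve products, if `a` holds the rank-two characters and if `b` holds the modular characters. -/
def Generator (a b : Prop) (m : ℕ) (t : Multiset (ZMod m)) : Prop :=
  SurfaceOrCurveProduct m t ∨ (a ∧ RankTwoCharacter m t) ∨ (b ∧ ModularCharacter m t)

/-- Membership in the family generated by the pairs, the standard characters, the characters with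
four entries, the curve products, the rank-two characters if `k ≤ 6` and `110` divides `m`, and the modular characters
if `6 < k` and an excluded number divides `m`, in the degree `m` if `m` is even and in the degree `2 * m` if `m` is
odd. -/
def InFamily (k m : ℕ) (s : Multiset (ZMod m)) : Prop :=
  (Even m → Generated m (Generator (k ≤ 6 ∧ 110 ∣ m) (6 < k ∧ ∃ l ∈ ExcludedEven k, l ∣ m) m) s) ∧
    (Odd m → Generated (2 * m)
      (Generator (k ≤ 6 ∧ 110 ∣ m) (6 < k ∧ ∃ l ∈ ExcludedOdd k, l ∣ m) (2 * m))
      (s.map fun a => ((2 * a.val : ℕ) : ZMod (2 * m))))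

/-- **All dimensions; at most six entries: all degrees; more entries: all degrees outside the multiples of finitely
many numbers with a prime factor `1 mod 4`.** -/
theorem result (k m : ℕ) (hm : 0 < m)
    (heven : 6 < k → Even m → ∀ l ∈ ExcludedEven k, (∃ p : ℕ, p.Prime ∧ p ∣ l ∧ p % 4 = 1) → ¬ l ∣ m)
    (hodd : 6 < k → Odd m → ∀ l ∈ ExcludedOdd k, (∃ p : ℕ, p.Prime ∧ p ∣ l ∧ p % 4 = 1) → ¬ l ∣ m)
    (s : Multiset (ZMod m)) (hs : IsHodge m s) (hne : s ≠ 0) (hcard : Multiset.card s ≤ k) :
    InFamily k m s := by
  have : NeZero m := ⟨hm.ne'⟩
  by_cases hk : k ≤ 6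
  · refine ⟨fun he => ?_, fun ho => ?_⟩
    · exact Pool.Agent.Q59.MC.gen_mono (fun t ht => ht.imp_right fun h => Or.inl ⟨⟨hk, h.1⟩, h.2⟩)
        (Pool.Agent.Q59.FF.main_even_six hm he hs hne (hcard.trans hk))
    · exact Pool.Agent.Q59.MC.gen_mono (fun t ht => Or.inl (Or.inl ht))
        (Pool.Agent.Y2.main_odd (Nat.odd_iff.mp ho) s hs (hcard.trans hk) hne)
  have hk6 : 6 < k := by omega
  refine ⟨fun he => ?_, fun ho => ?_⟩
  · by_cases hb : ∃ l ∈ ExcludedEven k, l ∣ m
    · exact Pool.Agent.Q59.MC.gen_mono (fun t ht => ht.imp_right fun h => Or.inr ⟨⟨hk6, hb⟩, h⟩)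
        (Pool.Agent.Q59.MC.main_even_M he.two_dvd (fun l hl h => heven hk6 he l hl h) hs hne hcard)
    · push Not at hb
      exact Pool.Agent.Q59.MC.gen_mono (fun t ht => Or.inl ht)
        (Pool.Agent.Q59.S6.main_all_even he.two_dvd (fun l hl => hb l hl) hs hne hcard)
  · by_cases hb : ∃ l ∈ ExcludedOdd k, l ∣ m
    · exact Pool.Agent.Q59.MC.gen_mono (fun t ht => ht.imp_right fun h => Or.inr ⟨⟨hk6, hb⟩, h⟩)
        (Pool.Agent.Q59.MC.main_odd_M (Nat.odd_iff.mp ho) (fun l hl h => hodd hk6 ho l hl h) hs hne
          hcard)
    · push Not at hb
      exact Pool.Agent.Q59.MC.gen_mono (fun t ht => Or.inl ht)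
        (Pool.Agent.Q59.S6.main_all_odd (Nat.odd_iff.mp ho) (fun l hl => hb l hl) hs hne hcard)

end Pool.Agent.Results.MP_43e44c_ag.FermatModularClasses
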