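import Pool.Agent.Q28.HJ.NC

/-!
# The noncommutative Hodge conjecture for sums of a form and general binary forms

We consider the smooth hypersurfaces of even or odd dimension `2r + dim V`

  `W : g(z) + f_1(x_1, y_1) + f_2(x_2, y_2) + ⋯ + f_r(x_r, y_r) = 0`  (`r ≥ 0` arbitrary),

where `V : g(z) = 0` is a smooth hypersurface of degree `d ≥ 5`, `d ≠ 6`, and the `f_j` are binary
forms of degree `d` with variables of their own, each of them very general with respect to the
previous ones. We prove that the conjecture for all admissible subcategories of `D^perf(W)` is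
equivalent to the Hodge conjecture for `V`; so it holds if `V` has dimension at most two (`V` may be
any smooth surface in `ℙ^3`, or a set of `d` points) or if `V` is a smooth quintic fourfold.
-/

open CategoryTheory MonoidalCategory

universe v u w v' u'

namespace Pool.Agent.Results.MP_43e44c_ag.GeneralBinaryForms

open Pool.Agent.Q28.HJ

/-- **NC Hodge conjecture for sums with general binary forms.** Let `T` be the homological motives
over `ℂ`, with the hypersurfaces, the functor to Hodge structures and the admissible subcategories
(`hT`: known facts). Let `V` be a smooth hypersurface of degree `d ≥ 5`, `d ≠ 6`. `T.Tower V W` means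
that `W` is given by `g + f_1 + ⋯ + f_r`, where `f_j` is a binary form which is general with respect
to `g + f_1 + ⋯ + f_(j-1)`.
(1) If `W` is such a hypersurface, then a very general binary form of degree `d` is general with
respect to `W`.
(2) For all such `W`: the noncommutative Hodge conjecture holds for all admissible subcategories of
`D^perf(W)` if and only if the Hodge conjecture holds for `V`.
(3) It holds if `V` has dimension at most two, or dimension four and degree five. -/
theorem result {𝓜 : Type u} [Category.{v} 𝓜] [Preadditive 𝓜] [MonoidalCategory 𝓜]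
    [MonoidalPreadditive 𝓜] {𝓗 : Type u'} [Category.{v'} 𝓗] [Preadditive 𝓗]
    {T : HodgeData.{v, u, w, v', u'} 𝓜 𝓗} [T.H.Additive] (hT : T.Facts) (V : T.Hyp)
    (hV : T.Smooth V) (hd : 5 ≤ T.deg V) (hd6 : T.deg V ≠ 6) :
    (∀ W, T.Tower V W →
      T.VeryGeneral (T.deg V) (fun Y => T.Smooth Y ∧ T.dim Y = 0 ∧ T.deg Y = T.deg V ∧
        T.GeneralFor W Y)) ∧
    (∀ W, T.Tower V W → ((∀ C : T.Adm W, T.NCHodge C) ↔ T.NCHodge (T.perf V))) ∧
    ((T.dim V ≤ 2 ∨ T.dim V = 4 ∧ T.deg V = 5) →
      ∀ W, T.Tower V W → ∀ C : T.Adm W, T.NCHodge C) :=
  HodgeData.final hT V hV hd hd6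

end Pool.Agent.Results.MP_43e44c_ag.GeneralBinaryForms
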