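import Mathlib
import Pool.Agent.Q34.SD.Cm
import Pool.Agent.Q34.SD.Rank
import Pool.Agent.Q34.SD.Gen
import Pool.Agent.Q34.SD.G12

/-!
# The (noncommutative) Hodge conjecture for abelian varieties with a period matrix over a number field

The noncommutative Hodge conjecture for `D^perf(X)` is the Hodge conjecture for `X`, and it passes to
all admissible subcategories (both facts are in the problem file). So the theorem of this file, on the
Hodge classes on the powers and products of abelian varieties, gives the noncommutative Hodge
conjecture for all admissible subcategories of `D^perf(X)` for these powers and products `X`.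

Let `K` be a number field in the complex numbers. We consider the abelian varieties
`A = ℂ ^ g / (ℤ ^ g + Z ℤ ^ g)` of any dimension `g` such that the period matrix `Z` has entries in
`K`.

* If the degree of `K` over `ℚ` is at most four then, for all these abelian varieties without any
  exception, all Hodge classes on all powers of `A` are generated by divisor classes; so the Hodge
  conjecture holds for all powers of `A`. The endomorphism algebra of `A` has dimension at least
  `g`; so `A` is never Hodge generic for `g ≥ 2`. If `A` is simple and of CM type then `g ≤ 2`. It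
  is enough that `Z` has at most four conjugates under the automorphisms of the complex numbers.
* If the degree of `K` is at least five then almost all of these abelian varieties (all outside of
  a hypersurface in the space of the symmetric matrices over `K`; so 100 percent of them if they are
  ordered by the size of the coordinates) are Hodge generic: the only endomorphisms are the
  multiplications by integers and the Hodge group is the full symplectic group. Again the Hodge
  conjecture holds for all powers of `A`, and for all products of such abelian varieties for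
  different number fields and dimensions.

Note that there are only countably many period matrices over `K`, so that statements on very general
abelian varieties (the complement of countably many proper closed analytic subsets) give nothing
here.

The proof. Let `D` be the Hodge operator on the complex homology, and consider the Lie algebra
generated by its conjugates. `D` and its conjugates are the involutions given by pairs of Lagrangian
subspaces, the conjugates of the Hodge filtration. In degree at most four the irreducible
constituents are irreducible systems of at most four subspaces, and these systems have dimension one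
or two. In dimension two the constituent is isomorphic to its dual, and the Lie algebra is the full
algebra of operators of trace zero. In dimension one the conjugates of `D` act by signs, and the signs
are determined by two of them, so that up to isomorphism and duality there are at most two such
constituents. It follows that all relations between the weights are the trivial ones. If the degree
is at least five then there are automorphisms `σ₁`, `σ₂`, `σ₃` of the complex numbers such that the
embeddings `σ₁, σ₁ conj, σ₂, σ₂ conj` of `K` are different and `σ₃` is a fifth one. The symmetric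
matrices over `K` are Zariski dense in the tuples of symmetric complex matrices indexed by the
embeddings of `K`. So it is enough to find one tuple of complex matrices such that the three
involutions generate the symplectic Lie algebra: take `1, -1, T, -T` with a diagonal matrix `T`, and
`q + (matrix of ones)` for the fifth embedding. The iterated brackets which form a basis at this tuple
remain linearly independent outside of a hypersurface.
-/

namespace Pool.Agent.Results.MP_43e44c_ag.NumberFieldPeriods

open Matrix Module Filter Topology Pool.Agent.H204R3.CM Pool.Agent.H194R3.CM Pool.Agent.W437.HC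
  Pool.Agent.W437.HD Pool.Agent.W437.HP

/-- The rational matrix `φ` is an endomorphism (with rational coefficients) of the abelian variety
`ℂ ^ g / (ℤ ^ g + Z ℤ ^ g)`: its action on the rational homology comes from a complex linear map
`M` of the tangent space (`perOne Z` is the inclusion `(a, b) ↦ a + Z b`). -/
def IsEndomorphism {g : ℕ} (Z : Matrix (Fin g) (Fin g) ℂ)
    (φ : Matrix (Fin g ⊕ Fin g) (Fin g ⊕ Fin g) ℚ) : Prop :=
  ∃ M : Matrix (Fin g) (Fin g) ℂ, ∀ w, perOne Z (φ.mulVec w) = M.mulVec (perOne Z w)

/-- The conjugates of the period matrix `Z` under the automorphisms of the complex numbers. -/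
def conjugates {g : ℕ} (Z : Matrix (Fin g) (Fin g) ℂ) : Set (Matrix (Fin g) (Fin g) ℂ) :=
  {M | ∃ σ : ℂ ≃+* ℂ, M = Z.map σ}

/-- On the complex torus with rational homology `W`, tangent space `T` and inclusion
`per : W → T`, all rational Hodge classes are linear combinations of products of rational Hodge
classes of degree two. -/
def Generated {W T : Type} [AddCommGroup W] [Module ℚ W] [AddCommGroup T] [Module ℂ T]
    (per : W →+ T) : Prop :=
  ∀ (m : ℕ) (f : W [⋀^Fin m × Fin 2]→ₗ[ℚ] ℚ), IsHodge per f → f ∈ divisorial per m

/-- The abelian variety is of CM type: the Hodge operator commutes with all its conjugates under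
the automorphisms of the complex numbers (its Hodge group is commutative). -/
def IsCMPeriod {g : ℕ} (Z : Matrix (Fin g) (Fin g) ℂ) : Prop :=
  ∀ σ : ℂ ≃+* ℂ, DZ Z * (DZ Z).map σ = (DZ Z).map σ * DZ Z

/-- The abelian variety is Hodge generic: the only endomorphisms are the rational multiples of the
identity, and all matrices `X` of the symplectic Lie algebra, acting as derivations, kill all rational
tensors on the homology which are killed by the Hodge operator `DZ Z = -i J` (the Hodge tensors), `J`
the matrix of the complex structure. -/
def IsHodgeGeneric {g : ℕ} (Z : Matrix (Fin g) (Fin g) ℂ) : Prop :=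
  (∀ φ, IsEndomorphism Z φ → ∃ c : ℚ, φ = c • 1) ∧
  ∀ X : Matrix (Fin g ⊕ Fin g) (Fin g ⊕ Fin g) ℂ,
    X.transpose * fromBlocks 0 1 (-1) 0 + fromBlocks 0 1 (-1) 0 * X = 0 →
      ∀ (n : ℕ) (c : (Fin n → Fin g ⊕ Fin g) → ℚ), act (DZ Z) (cst ℂ c) = 0 → act X (cst ℂ c) = 0

/-- The symmetric matrix over the number field `K` with the rational coordinates `t` for the basis
`θ` of `K`: the entry with the indices `a`, `b` is the sum of the products
`t ({a, b}, j) * θ j`. -/
noncomputable def matrixOf {K : IntermediateField ℚ ℂ} {n : ℕ} (θ : Basis (Fin n) ℚ K) {g : ℕ}
    (t : Sym2 (Fin g) × Fin n → ℚ) : Matrix (Fin g) (Fin g) ℂ :=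
  Matrix.of fun a b => ∑ j, (t (s(a, b), j) : ℂ) * (θ j : ℂ)

/-- The property `p` holds for all period matrices `Z` (the symmetric matrices with positive definite
imaginary part) over the number field `K` of size `g` outside of a hypersurface: in terms of the
coordinates for each basis of `K` there is a nonzero polynomial `P` such that `p` holds for all period
matrices at which `P` is not zero. -/
def AlmostAll (K : IntermediateField ℚ ℂ) (g : ℕ) (p : Matrix (Fin g) (Fin g) ℂ → Prop) : Prop :=
  ∀ (n : ℕ) (θ : Basis (Fin n) ℚ K), ∃ P : MvPolynomial (Sym2 (Fin g) × Fin n) ℂ, P ≠ 0 ∧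
    ∀ t : Sym2 (Fin g) × Fin n → ℚ, ((matrixOf θ t).map Complex.im).PosDef →
      MvPolynomial.eval (fun i => (t i : ℂ)) P ≠ 0 → p (matrixOf θ t)

/-- **Abelian varieties with a period matrix over a number field.**

1. Let `Z` be a period matrix with entries in a number field of degree at most four; or, more
   generally, with at most four conjugates. Then all Hodge classes on all powers of the abelian variety
   are generated by divisor classes; there are `g` linearly independent endomorphisms, where `g` is
   the dimension; if the abelian variety is simple and of CM type then the dimension is at most two.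
2. Let `K` be a number field of degree at least five and `g > 0`. Almost all period matrices over `K`
   of size `g` are Hodge generic; for all products of abelian varieties which are Hodge generic
   the Hodge classes are generated by divisor classes.
3. A property which holds for almost all period matrices over a number field which is not contained
   in the real numbers holds for 100 percent of the period matrices with integral coordinates, if they
   are ordered by the maximum of the absolute values of the coordinates. -/
theorem result :
    (∀ {g : ℕ} (Z : Matrix (Fin g) (Fin g) ℂ), Z.transpose = Z → (Z.map Complex.im).PosDef →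
      ((∃ K : IntermediateField ℚ ℂ, FiniteDimensional ℚ K ∧ finrank ℚ K ≤ 4 ∧
        ∀ a b, Z a b ∈ K) → (conjugates Z).encard ≤ 4) ∧
      ((conjugates Z).encard ≤ 4 →
        (∀ n : ℕ, Generated (perPow Z n)) ∧
        (∃ ψ : Fin g → Matrix (Fin g ⊕ Fin g) (Fin g ⊕ Fin g) ℚ,
          LinearIndependent ℚ ψ ∧ ∀ k, IsEndomorphism Z (ψ k)) ∧
        (IsSimpleAV Z → IsCMPeriod Z → g ≤ 2))) ∧
    ((∀ (K : IntermediateField ℚ ℂ) [FiniteDimensional ℚ K], 5 ≤ finrank ℚ K →
        ∀ g : ℕ, 0 < g → AlmostAll K g IsHodgeGeneric) ∧
      ∀ {r : ℕ} {d : Fin r → ℕ} (Z : ∀ i, Matrix (Fin (d i)) (Fin (d i)) ℂ),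
        (∀ i, (Z i).transpose = Z i ∧ ((Z i).map Complex.im).PosDef ∧ IsHodgeGeneric (Z i)) →
        ∀ {m : ℕ} (c : Fin m → Fin r), Generated (perFam Z c)) ∧
    (∀ (K : IntermediateField ℚ ℂ) [FiniteDimensional ℚ K] (g : ℕ)
      (p : Matrix (Fin g) (Fin g) ℂ → Prop), AlmostAll K g p →
      (∃ x ∈ K, starRingEnd ℂ x ≠ x) → ∀ (n : ℕ) (θ : Basis (Fin n) ℚ K),
        Tendsto (fun B : ℕ =>
          (({t : Sym2 (Fin g) × Fin n → ℤ | (∀ i, |t i| ≤ B) ∧
            ((matrixOf θ fun i => (t i : ℚ)).map Complex.im).PosDef ∧
            p (matrixOf θ fun i => (t i : ℚ))}.ncard : ℕ) : ℝ) /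
          ({t : Sym2 (Fin g) × Fin n → ℤ | (∀ i, |t i| ≤ B) ∧
            ((matrixOf θ fun i => (t i : ℚ)).map Complex.im).PosDef}.ncard : ℕ)) atTop (𝓝 1)) := by
  refine ⟨?_, ⟨?_, ?_⟩, ?_⟩
  · intro g Z hZ hpos
    refine ⟨?_, fun h => ⟨fun n m f hf => Pool.Agent.Q34.SD.divisorial_four hZ hpos h f hf, ?_,
      fun hs hcm => Pool.Agent.Q34.SD.dim_le_two hZ hpos hs h hcm⟩⟩
    · rintro ⟨K, hf, hK, hZK⟩
      refine (Pool.Agent.Q34.SD.encard_conj_le K hZK).trans ?_
      exact_mod_cast hK
    · have h1 : Pool.Agent.W548.Odd.InCm (DZ '' {Z}) (Pool.Agent.W548.Odd.qm
          (1 : Matrix (Fin g ⊕ Fin g) (Fin g ⊕ Fin g) ℚ)) := by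
        intro X _
        have h1 : Pool.Agent.W548.Odd.qm (1 : Matrix (Fin g ⊕ Fin g) (Fin g ⊕ Fin g) ℚ) = 1 :=
          Matrix.map_one _ (by simp) (by simp)
        rw [h1, one_mul, mul_one]
      obtain ⟨ψ, hψ, hψ'⟩ := Pool.Agent.Q34.SD.exists_endos hZ hpos h1
        (Pool.Agent.Q34.SD.four_of_conj hpos h 1)
      exact ⟨ψ, hψ, fun k => ⟨_, Pool.Agent.W437.HQ.endo_of_comm
        (hpos.isUnit.map Matrix.detMonoidHom)
        (hψ' k _ (Pool.Agent.W548.Odd.LA_self ⟨Z, rfl, rfl⟩))⟩⟩
  · intro K _ h5 g hg n θ
    obtain ⟨P, hP, h⟩ := Pool.Agent.Q34.SD.generic K θ g h5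
    refine ⟨P, hP, fun t hpos ht => ?_⟩
    exact Pool.Agent.Q34.SD.gen_of_sp (Pool.Agent.Q34.SD.Zt_symm K θ g t) hpos (h t ht hpos)
  · intro r d Z hZ m c k f hf
    exact Pool.Agent.W437.HR.divisorial_of_pcs Z (fun i => (hZ i).1) (fun i => (hZ i).2.1)
      (fun i => Pool.Agent.Q34.SD.hasPcs_of_lieM (hZ i).1 fun X hX n c hc =>
        (hZ i).2.2.2 X hX n c hc) c f hf
  · intro K _ g p hp hK n θ
    obtain ⟨P, hP, h⟩ := hp n θ
    exact Pool.Agent.Q34.SD.density_K K θ g hK hP fun t hpos ht => h t hpos ht

end Pool.Agent.Results.MP_43e44c_ag.NumberFieldPeriods
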