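import Mathlib
import Pool.Agent.Q60.NH.Defs

/-!
# The noncommutative Hodge conjecture and abelian varieties of prime dimension

The noncommutative Hodge conjecture holds for every admissible subcategory `C` of the derived category
of a smooth proper complex variety whose noncommutative motive is, up to homological equivalence, a
direct summand of a sum of noncommutative motives of good abelian varieties. Here an abelian variety
is good (`IsGood`) if it is isogenous to a product of abelian varieties, in any number and with any
multiplicities, each of which is

* simple of dimension at most three; or
* simple of prime dimension, with or without complex multiplication, where the larger one of the two
  multiplicities of each imaginary quadratic field in the endomorphism algebra is two or three; or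
* of unitary type: an imaginary quadratic field is its own centralizer in the endomorphism algebra, with
  coprime multiplicities between one and three (`IsUnitary`); or the endomorphism algebra is an imaginary
  quadratic field with multiplicities between one and three, and the Hodge classes of codimension two
  on the fourth power are of Lefschetz type (`IsLefU`); or a fourfold of Weil type whose endomorphism
  algebra is an imaginary quadratic field (`IsBal`); or
* of real type, that is a totally real field of degree `e` is its own centralizer in the endomorphism
  algebra, where `dim / e` is odd (`IsReal`) or two (`IsReal2`), or of any dimension if the Hodge classes of
  codimension two on the fourth power are of Lefschetz type (`IsLefR`); or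
* of CM type, of any dimension, where the CM type is nondegenerate and primitive over the real subfield
  (`NonDegPrim`), or separated (`SepT`);

and two factors of CM type with the same Galois closure of their CM fields have isomorphic CM types if
one of them has dimension larger than three, with a corresponding condition for three factors of
dimension at most three.

The class of these `C` contains `D^perf(X)` for all good abelian varieties `X`, and with `D` all
retracts of `D`, in particular all admissible subcategories of `D`.

Examples. The motive of a smooth projective curve is a summand of that of its Jacobian, that of a product
of curves is a summand of the motive of the product of the Jacobians. So the theorem applies to all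
smooth projective varieties dominated by a product of curves whose Jacobians have good products, for
instance powers of one curve of prime genus with simple Jacobian (with the condition on imaginary
quadratic fields), to the moduli spaces of stable vector bundles of coprime rank and degree over
such curves, to the Fano threefolds whose intermediate Jacobian is simple of prime dimension, as
cubic threefolds and prime Fano threefolds of genus `7`, `8`, `9`, `10`, to the products of such varieties
for which the product of the abelian varieties is good, and to all admissible subcategories of the
derived categories of all these varieties.

Proof. By the theorem on products of abelian varieties of prime dimension and generic type (see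
`MP_802513_ag.AbelianPrimeDimension`) all Hodge classes on a good abelian variety are generated by
divisor classes and the Weil classes of imaginary quadratic fields, which are algebraic by Markman.
-/

set_option autoImplicit false

namespace Pool.Agent.Results.MP_43e44c_ag.PrimeDimension

open Pool.Agent.H204R3.CM Pool.Agent.Q60.D3 Pool.Agent.Q60.NH
open Pool.Agent.Q180.WT (Gen)

/-- **The noncommutative Hodge conjecture for the categories which come from good abelian
varieties.** -/
theorem result :
    -- the Hodge classes on good abelian varieties are generated by divisors and Weil classes
    (∀ X : AV, IsGood X → ∀ (κ : Type) [Finite κ] (f : X.H [⋀^κ]→ₗ[ℚ] ℚ),
      IsHodge X.per f ↔ Gen {2, 3} X κ f) ∧
    -- the noncommutative Hodge conjecture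
    ∀ T : NCData, T.Facts →
      (∀ X : AV, IsGood X → T.FromGood (T.perf X)) ∧
      (∀ C D : T.Cat, T.IsRetract C D → T.FromGood D → T.FromGood C) ∧
      ∀ C : T.Cat, T.FromGood C → T.NCHodge C :=
  ⟨fun _ hX _ _ f => hX.gen f, fun _ hT =>
    ⟨fun _ hX => hT.perf hX, fun _ _ h hD => hT.retract h hD, fun _ hC => hT.nc hC⟩⟩

end Pool.Agent.Results.MP_43e44c_ag.PrimeDimension
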